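import Pool.Agent.H741R2.DBRed

/-!
# Labels from a four-colouring, for all large lengths

Adapted from the starting file `H741R2/DBIf`: the length `k` of the labels is now any number that is
at least `M + P + 5`.
-/

set_option autoImplicit false

namespace Pool.Agent.Y403.DB

open Pool.Agent.H741R2


/-- Labels of the vertices of `H` give a labelling of the line digraph of `H`. -/
theorem line_of_lab' {Λ : Type} (A : List (Λ × Λ)) (k : ℕ) (hk : 1 ≤ k) (l : Λ → ℕ → Bool)
    (hs : ∀ a ∈ A, ∀ i, i + 1 < k → l a.1 (i + 1) = l a.2 i)
    (hi : ∀ u v, (∃ a ∈ A, u = a.1 ∨ u = a.2) → (∃ a ∈ A, v = a.1 ∨ v = a.2) →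
      (∀ i < k, l u i = l v i) → u = v) : InClass 2 (k + 1) (lineRel A) := by
  refine ⟨fun a i => toF (if (i : ℕ) < k then l a.1.1 i else l a.1.2 (k - 1)),
    ?_, ?_⟩
  · intro a b hab
    have h1 : ∀ i < k, l a.1.1 i = l b.1.1 i := by
      intro i hik
      have := toF_inj (congrFun hab ⟨i, by omega⟩)
      simpa [hik] using this
    have h2 : ∀ i < k, l a.1.2 i = l b.1.2 i := by
      intro i hik
      have := toF_inj (congrFun hab ⟨i + 1, by omega⟩)
      by_cases hik' : i + 1 < k
      · simp only [hik', if_true] at this
        rwa [hs _ a.2 _ hik', hs _ b.2 _ hik'] at this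
      · simp only [hik', if_false] at this
        have e : i = k - 1 := by omega
        rw [e]
        exact this
    exact Subtype.ext (Prod.ext (hi _ _ ⟨a.1, a.2, Or.inl rfl⟩ ⟨b.1, b.2, Or.inl rfl⟩ h1)
      (hi _ _ ⟨a.1, a.2, Or.inr rfl⟩ ⟨b.1, b.2, Or.inr rfl⟩ h2))
  · intro a b
    have key : ∀ i < k, (if i + 1 < k then l a.1.1 (i + 1) else l a.1.2 (k - 1)) = l a.1.2 i := by
      intro i hik
      split_ifs with h
      · exact hs _ a.2 _ h
      · have e : i = k - 1 := by omega
        rw [e]
    constructor
    · intro hab i j hij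
      have hik : (i : ℕ) < k := by omega
      have h1 := key i hik
      simp only [hij, hik, if_true, h1]
      rw [show a.1.2 = b.1.1 from hab]
    · intro h
      refine hi _ _ ⟨a.1, a.2, Or.inr rfl⟩ ⟨b.1, b.2, Or.inl rfl⟩ ?_
      intro i hik
      have h1 := toF_inj (h ⟨i, by omega⟩ ⟨i + 1, by omega⟩ rfl)
      simp only [hik, if_true] at h1
      rw [key i hik] at h1
      exact h1

section If

variable {t g M k P : ℕ} {c1 c2 : ℕ → Bool} {E : List (ℕ × ℕ)} {fi : ℕ → ℕ}

theorem lett_shift' (hg : g = 2 * t + 2) (hM : M = 2 * g + 10) (hk : M + P + 5 ≤ k)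
    (hE : E.length ≤ 2 ^ t) {a : Nd × Nd} (ha : a ∈ arcs E g P) :
    a.2.2.1 = a.1.2.1 + 1 ∧ ∀ p, a.1.2.1 + 2 ≤ p → p ≤ a.1.2.1 + k →
      lett t g M k c1 c2 fi a.1 p = lett t g M k c1 c2 fi a.2 p := by
  rw [mem_arcs] at ha
  rcases ha with ⟨e, pr, x, hp, hx, ha⟩ | ⟨i, hi, rfl⟩
  · have he : e < 2 ^ t := by
      by_contra hlt
      rw [List.getElem?_eq_none (by omega)] at hp
      simp at hp
    have hmod : ∀ c, t ≤ c → e % 2 ^ c = e := fun c hc =>
      Nat.mod_eq_of_lt (lt_of_lt_of_le he (Nat.pow_le_pow_right (by norm_num) hc))
    rcases ha with ⟨c, hc, rfl⟩ | rfl | rfl | rfl | rfl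
    · refine ⟨rfl, fun p h1 h2 => lett_congr (by simp) (by simp) (fun _ _ => rfl) (fun _ => rfl)
        (fun _ => rfl) (fun _ => rfl) (fun h3 h4 => ?_) (fun h3 => ?_)⟩
      · simp only at h1 h2
        simp only
        rw [Nat.testBit_mod_two_pow, Nat.testBit_mod_two_pow]
        have e1 : p - (k + 2) < c - 1 := by omega
        have e2 : p - (k + 2) < c := by omega
        simp [e1, e2]
      · simp only at h1 h2
        simp only
        rw [hmod c (by omega), hmod (c - 1) (by omega)]
    · refine ⟨?_, fun p h1 h2 => rfl⟩
      simp only; omega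
    · refine ⟨rfl, fun p h1 h2 => ?_⟩
      simp only at h1 h2
      exact lett_congr (by simp) (by simp) (fun _ _ => rfl) (fun _ => rfl)
        (fun _ => rfl) (fun _ => rfl) (fun h3 h4 => rfl) (fun h3 => by omega)
    · exact ⟨rfl, fun p h1 h2 => rfl⟩
    · refine ⟨rfl, fun p h1 h2 => ?_⟩
      simp only at h1 h2
      rw [hmod (g + 2) (by omega)]
      exact lett_congr (by simp) (by simp) (fun _ _ => by omega) (fun _ => by omega)
        (fun _ => by omega) (fun _ => by omega) (fun h3 h4 => rfl) (fun h3 => rfl)
  · exact ⟨rfl, fun p _ _ => rfl⟩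

theorem lab_inj' (hg : g = 2 * t + 2) (hM : M = 2 * g + 10) (hk : M + P + 5 ≤ k)
    (hE : E.length ≤ 2 ^ t) (hb : ∀ e ∈ E, e.1 < 2 ^ t ∧ e.2 < 2 ^ t) (hl : ∀ e ∈ E, e.1 ≠ e.2)
    (hcol : ∀ e ∈ E, ¬ (c1 e.1 = c1 e.2 ∧ c2 e.1 = c2 e.2))
    (hfi : ∀ e pr, E[e]? = some pr → fi e = pr.1)
    {u v : Nd} (hu : Good E g P u) (hv : Good E g P v)
    (h : ∀ i < k, lab t g M k c1 c2 fi u i = lab t g M k c1 c2 fi v i) : u = v := by
  -- heights
  have hht : ∀ u : Nd, Good E g P u → u.1 ≠ 2 → u.2.1 ≤ g + 4 := by
    intro u hu h2
    rcases hu with hu | hu | hu | hu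
    · exact hu.2.1
    · rcases hu.2.1 with h | h <;> omega
    · rcases hu.2.1 with h | h <;> omega
    · exact absurd hu.1 h2
  have hlt : ∀ e pr, E[e]? = some pr → e < 2 ^ t := by
    intro e pr hp
    by_contra hlt
    rw [List.getElem?_eq_none (by omega)] at hp
    simp at hp
  have hmod : ∀ e pr, E[e]? = some pr → ∀ c, t ≤ c → e % 2 ^ c = e := fun e pr hp c hc =>
      Nat.mod_eq_of_lt (lt_of_lt_of_le (hlt e pr hp) (Nat.pow_le_pow_right (by norm_num) hc))
  -- path versus path
  have pp : ∀ u v : Nd, Good E g P u → Good E g P v → u.1 = 2 → v.1 = 2 →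
      (∀ i < k, lab t g M k c1 c2 fi u i = lab t g M k c1 c2 fi v i) → ¬ (u.2.1 < v.2.1) := by
    intro u v hu hv h2 h2' h hlt
    have hvP : v.2.1 ≤ P := by
      rcases hv with hv | hv | hv | hv
      · omega
      · omega
      · omega
      · exact hv.2.1
    have := h (k - v.2.1) (by omega)
    unfold lab lett at this
    rw [if_pos h2, if_pos h2', decide_eq_decide] at this
    omega
  -- path versus the rest
  have pm : ∀ u v : Nd, Good E g P u → Good E g P v → u.1 = 2 → v.1 ≠ 2 →
      (∀ i < k, lab t g M k c1 c2 fi u i = lab t g M k c1 c2 fi v i) → False := by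
    intro u v hu hv h2 h2' h
    have hvh := hht v hv h2'
    have huP : u.2.1 ≤ P := by
      rcases hu with hu | hu | hu | hu
      · omega
      · omega
      · omega
      · exact hu.2.1
    have := h (M - v.2.1) (by omega)
    unfold lab lett at this
    rw [if_pos h2, if_neg h2', if_neg (by omega), if_neg (by omega), if_neg (by omega),
      if_neg (by omega), if_neg (by omega), if_neg (by omega), if_pos (by omega)] at this
    simp only [decide_eq_false_iff_not] at this
    omega
  -- different heights
  have dh : ∀ u v : Nd, Good E g P u → Good E g P v → u.1 ≠ 2 → v.1 ≠ 2 →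
      (∀ i < k, lab t g M k c1 c2 fi u i = lab t g M k c1 c2 fi v i) → ¬ (u.2.1 < v.2.1) := by
    intro u v hu hv h2 h2' h hlt
    have huh := hht u hu h2
    have hvh := hht v hv h2'
    have := h (M - 1 - v.2.1) (by omega)
    unfold lab lett at this
    rw [if_neg h2, if_neg h2', if_neg (by omega), if_neg (by omega), if_neg (by omega),
      if_neg (by omega), if_neg (by omega), if_neg (by omega), if_pos (by omega),
      if_neg (by omega), if_neg (by omega), if_neg (by omega), if_neg (by omega),
      if_neg (by omega), if_pos (by omega)] at this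
    exact absurd this (by simp)
  by_cases h2 : u.1 = 2
  · by_cases h2' : v.1 = 2
    · have h3 := pp u v hu hv h2 h2' h
      have h4 := pp v u hv hu h2' h2 (fun i hi => (h i hi).symm)
      rcases hu with hu | hu | hu | hu
      · omega
      · omega
      · omega
      rcases hv with hv | hv | hv | hv
      · omega
      · omega
      · omega
      obtain ⟨a1, a2, a3, a4⟩ := u
      obtain ⟨b1, b2, b3, b4⟩ := v
      simp only [Prod.mk.injEq] at *
      omega
    · exact (pm u v hu hv h2 h2' h).elim
  · by_cases h2' : v.1 = 2
    · exact (pm v u hv hu h2' h2 (fun i hi => (h i hi).symm)).elim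
    -- the same height
    have h3 := dh u v hu hv h2 h2' h
    have h4 := dh v u hv hu h2' h2 (fun i hi => (h i hi).symm)
    have hc : v.2.1 = u.2.1 := by omega
    have huh := hht u hu h2
    have hL : ∀ p, u.2.1 + 1 ≤ p → p ≤ u.2.1 + k →
        lett t g M k c1 c2 fi u p = lett t g M k c1 c2 fi v p := by
      intro p h5 h6
      have := h (p - (u.2.1 + 1)) (by omega)
      unfold lab at this
      rw [hc, show u.2.1 + 1 + (p - (u.2.1 + 1)) = p by omega] at this
      exact this
    -- the last components
    have hbits : ∀ b < t, b + 2 ≤ u.2.1 → u.2.2.2.testBit b = v.2.2.2.testBit b := by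
      intro b h5 h6
      have := hL (k + 2 + b) (by omega) (by omega)
      unfold lett at this
      rw [if_neg h2, if_neg h2', if_neg (by omega), if_neg (by omega), if_neg (by omega),
        if_neg (by omega), if_neg (by omega), if_neg (by omega), if_neg (by omega),
        if_pos (by omega), if_neg (by omega), if_neg (by omega), if_neg (by omega),
        if_neg (by omega), if_neg (by omega), if_neg (by omega), if_neg (by omega),
        if_pos (by omega), show k + 2 + b - (k + 2) = b by omega] at this
      exact this
    have hsmall : ∀ w : Nd, Good E g P w → w.1 ≠ 2 → w.2.1 ≤ g + 4 →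
        (∀ b, (t ≤ b ∨ w.2.1 < b + 2) → w.2.2.2.testBit b = false) := by
      intro w hw hw2 _ b hb'
      rcases hw with hw | hw | hw | hw
      · obtain ⟨_, _, e, pr, hp, _, hd⟩ := hw
        rw [hd, Nat.testBit_mod_two_pow]
        rcases hb' with hb' | hb'
        · have : e.testBit b = false :=
            Nat.testBit_lt_two_pow (lt_of_lt_of_le (hlt e pr hp)
              (Nat.pow_le_pow_right (by norm_num) hb'))
          simp [this]
        · have : ¬ (b < w.2.1 - 1) := by omega
          simp [this]
      · obtain ⟨_, h5, _, pr, hp⟩ := hw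
        have h6 : t ≤ b := by omega
        exact Nat.testBit_lt_two_pow (lt_of_lt_of_le (hlt _ pr hp)
              (Nat.pow_le_pow_right (by norm_num) h6))
      · obtain ⟨_, h5, pr, hp, _⟩ := hw
        have h6 : t ≤ b := by omega
        exact Nat.testBit_lt_two_pow (lt_of_lt_of_le (hlt _ pr hp)
              (Nat.pow_le_pow_right (by norm_num) h6))
      · exact absurd hw.1 hw2
    have hd : u.2.2.2 = v.2.2.2 := by
      apply Nat.eq_of_testBit_eq
      intro b
      by_cases hb' : t ≤ b ∨ u.2.1 < b + 2
      · rw [hsmall u hu h2 huh b hb', hsmall v hv h2' (by omega) b (by omega)]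
      · exact hbits b (by omega) (by omega)
    -- kinds
    have hkind : g - 1 ≤ u.2.1 → u.2.1 ≤ g + 2 → (u.1 = 1 ↔ v.1 = 1) := by
      intro h5 h6
      have := hL (g + 3) (by omega) (by omega)
      unfold lett at this
      rw [if_neg h2, if_neg h2', if_neg (by omega), if_neg (by omega), if_neg (by omega),
        if_neg (by omega), if_pos rfl, if_neg (by omega), if_neg (by omega), if_neg (by omega),
        if_neg (by omega), if_pos rfl, decide_eq_decide] at this
      exact this
    have hkind' : u.1 = v.1 := by
      rcases hu with hu | hu | hu | hu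
      · rcases hv with hv | hv | hv | hv
        · omega
        · have := hkind (by omega) (by omega)
          omega
        · have := hkind (by omega) (by omega)
          omega
        · omega
      · have := hkind (by omega) (by omega)
        omega
      · have := hkind (by omega) (by omega)
        omega
      · omega
    -- the orientation
    have hor : g + 1 ≤ u.2.1 → (u.2.2.1 = fi u.2.2.2 ↔ v.2.2.1 = fi v.2.2.2) := by
      intro h5
      have := hL (k + g + 1) (by omega) (by omega)
      unfold lett at this
      rw [if_neg h2, if_neg h2', if_neg (by omega), if_neg (by omega), if_neg (by omega),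
        if_neg (by omega), if_neg (by omega), if_neg (by omega), if_neg (by omega),
        if_neg (by omega), if_pos rfl, if_neg (by omega), if_neg (by omega), if_neg (by omega),
        if_neg (by omega), if_neg (by omega), if_neg (by omega), if_neg (by omega),
        if_neg (by omega), if_pos rfl, decide_eq_decide] at this
      exact this
    -- two ends of an edge
    have hends : ∀ pr x y, E[u.2.2.2]? = some pr → (x = pr.1 ∨ x = pr.2) → (y = pr.1 ∨ y = pr.2) →
        (x = fi u.2.2.2 ↔ y = fi u.2.2.2) → x = y := by
      intro pr x y hp hx hy hxy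
      rw [hfi _ _ hp] at hxy
      rcases hx with rfl | rfl <;> rcases hy with rfl | rfl
      · rfl
      · exact (hxy.1 rfl).symm
      · exact hxy.2 rfl
      · rfl
    have hx : u.2.2.1 = v.2.2.1 := by
      rcases hu with hu | hu | hu | hu
      · rcases hv with hv | hv | hv | hv
        · obtain ⟨hu1, _, e, pr, hp, hxu, hdu⟩ := hu
          obtain ⟨hv1, _, e', pr', hp', hxv, hdv⟩ := hv
          by_cases hlow : u.2.1 ≤ t + 1
          · -- the name of the vertex can be read
            have hux : u.2.2.1 < 2 ^ t := by
              have := hb pr (List.mem_of_getElem? hp)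
              rcases hxu with h | h <;> rw [h] <;> [exact this.1; exact this.2]
            have hvx : v.2.2.1 < 2 ^ t := by
              have := hb pr' (List.mem_of_getElem? hp')
              rcases hxv with h | h <;> rw [h] <;> [exact this.1; exact this.2]
            apply Nat.eq_of_testBit_eq
            intro b
            by_cases hbt : b < t
            · have := hL (t + 2 + b) (by omega) (by omega)
              unfold lett at this
              rw [if_neg h2, if_neg h2', if_neg (by omega), if_pos (by omega), if_neg (by omega),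
                if_pos (by omega), show t + 2 + b - (t + 2) = b by omega] at this
              simpa [hu1, hv1] using this
            · rw [Nat.testBit_lt_two_pow (lt_of_lt_of_le hux
                  (Nat.pow_le_pow_right (by norm_num) (by omega))),
                Nat.testBit_lt_two_pow (lt_of_lt_of_le hvx
                  (Nat.pow_le_pow_right (by norm_num) (by omega)))]
          · have e1 : u.2.2.2 = e := by rw [hdu, hmod e pr hp _ (by omega)]
            have e2 : u.2.2.2 = e' := by rw [hd, hdv, hmod e' pr' hp' _ (by omega)]
            have e3 : pr = pr' := by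
              have : some pr = some pr' := by rw [← hp, ← hp', ← e1, ← e2]
              exact Option.some.inj this
            subst e3
            by_cases hmid : u.2.1 ≤ g
            · -- the colours can be read
              have h5 := hL (g + 1) (by omega) (by omega)
              have h6 := hL (g + 2) (by omega) (by omega)
              unfold lett at h5 h6
              rw [if_neg h2, if_neg h2', if_neg (by omega), if_neg (by omega), if_pos rfl,
                if_neg (by omega), if_neg (by omega), if_pos rfl] at h5
              rw [if_neg h2, if_neg h2', if_neg (by omega), if_neg (by omega), if_neg (by omega),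
                if_pos rfl, if_neg (by omega), if_neg (by omega), if_neg (by omega),
                if_pos rfl] at h6
              simp only [hu1, hv1, decide_true, Bool.true_and] at h5 h6
              have h7 := hcol pr (List.mem_of_getElem? hp)
              rcases hxu with h8 | h8 <;> rcases hxv with h9 | h9
              · rw [h8, h9]
              · rw [h8, h9] at h5 h6
                exact absurd ⟨h5, h6⟩ h7
              · rw [h8, h9] at h5 h6
                exact absurd ⟨h5.symm, h6.symm⟩ h7
              · rw [h8, h9]
            · refine hends pr _ _ (by rw [e1]; exact hp) hxu hxv ?_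
              have := hor (by omega)
              rwa [← hd] at this
        · omega
        · omega
        · omega
      · rcases hv with hv | hv | hv | hv
        · omega
        · rw [hu.2.2.1, hv.2.2.1]
        · omega
        · omega
      · rcases hv with hv | hv | hv | hv
        · omega
        · omega
        · obtain ⟨_, _, pr, hp, hxu⟩ := hu
          obtain ⟨_, _, pr', hp', hxv⟩ := hv
          have e3 : pr = pr' := by
            have : some pr = some pr' := by rw [← hp, ← hp', hd]
            exact Option.some.inj this
          subst e3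
          refine hends pr _ _ hp hxu hxv ?_
          have := hor (by omega)
          rwa [← hd] at this
        · omega
      · omega
    exact Prod.ext hkind' (Prod.ext hc.symm (Prod.ext hx hd))

/-- Four-colourability is sufficient. -/
theorem if_dir' {A : List (Nd × Nd)} (hA : ∀ a, a ∈ A ↔ a ∈ arcs E (2 * t + 2) P)
    (hE : E.length ≤ 2 ^ t) (hb : ∀ e ∈ E, e.1 < 2 ^ t ∧ e.2 < 2 ^ t) (hl : ∀ e ∈ E, e.1 ≠ e.2)
    (h : ∃ c : ℕ → Fin 4, ∀ e ∈ E, c e.1 ≠ c e.2)
    (hk : 2 * (2 * t + 2) + 10 + P + 5 ≤ k) : InClass 2 (k + 1) (lineRel A) := by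
  obtain ⟨c, hc⟩ := h
  let g := 2 * t + 2
  let M := 2 * g + 10
  let c1 : ℕ → Bool := fun x => decide ((c x).val % 2 = 1)
  let c2 : ℕ → Bool := fun x => decide ((c x).val / 2 = 1)
  let fi : ℕ → ℕ := fun e => (E[e]?.getD (0, 0)).1
  refine line_of_lab' A k (by omega) (lab t g M k c1 c2 fi) ?_ ?_
  · intro a ha i hi
    rw [hA] at ha
    obtain ⟨h1, h2⟩ := lett_shift' (c1 := c1) (c2 := c2) (fi := fi) (g := g) (M := M) (k := k) rfl rfl hk
      hE ha
    unfold lab
    rw [h1, h2 _ (by omega) (by omega)]
    congr 1
    omega
  · intro u v hu hv huv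
    have hgood : ∀ w : Nd, (∃ a ∈ A, w = a.1 ∨ w = a.2) → Good E g P w := by
      rintro w ⟨a, ha, hw⟩
      rw [hA] at ha
      obtain ⟨h1, h2⟩ := good_of_mem ha
      rcases hw with rfl | rfl
      · exact h1
      · exact h2
    refine lab_inj' (g := g) (M := M) (k := k) rfl rfl hk hE hb hl ?_ ?_ (hgood u hu) (hgood v hv)
      huv
    · rintro e he ⟨h1, h2⟩
      apply hc e he
      simp only [c1, c2, decide_eq_decide] at h1 h2
      have h3 := (c e.1).isLt
      have h4 := (c e.2).isLt
      apply Fin.ext
      omega
    · intro e pr hp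
      simp only [fi, hp, Option.getD_some]

end If

end Pool.Agent.Y403.DB
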