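import Pool.Agent.Y403.DB.If

/-!
# The reduction: all large lengths, levels
-/

set_option autoImplicit false

namespace Pool.Agent.Y403.DB

open Pool.Agent.NPC Pool.Agent.H741R2 Pool.Agent.H692R2

theorem ldig_classk {A : List (Nd × Nd)} (hA : A.Nodup) {k : ℕ} (h : InClass 2 k (lineRel A)) :
    InClass 2 k (arcRel (ldig A)) := by
  have hlt : ∀ v : {v : ℕ // v ∈ (ldig A).1}, v.1 < A.length := fun v => by
    have := v.2
    unfold ldig at this
    simpa using this
  refine h.of_embedding (fun v => ⟨A[v.1]'(hlt v), List.getElem_mem _⟩) ?_ ?_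
  · intro u v huv
    have h1 := congrArg Subtype.val huv
    exact Subtype.ext ((List.Nodup.getElem_inj_iff hA).1 h1)
  · intro u v
    unfold arcRel
    rw [mem_ldig (hlt u) (hlt v)]
    rfl

theorem length_HA (E : List (ℕ × ℕ)) : PP E ≤ (HA E).length := by
  have h1 : (pad (PP E)).Nodup := by
    unfold pad
    refine List.nodup_range.map ?_
    intro a b hab
    simpa using hab
  have h2 : pad (PP E) ⊆ HA E := by
    intro a ha
    unfold HA
    rw [List.mem_dedup]
    exact List.mem_append_right _ ha
  have h3 := (h1.subperm h2).length_le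
  have h4 : (pad (PP E)).length = PP E := by simp [pad]
  omega

theorem length_red (E : List (ℕ × ℕ)) : (red E).1.length = (HA E).length := by
  simp [red, ldig]

theorem tt_le (E : List (ℕ × ℕ)) : tt E ≤ 4 * E.length + 1 := by
  have h1 := two_pow_tt_le E
  have h2 : tt E < 2 ^ tt E := Nat.lt_two_pow_self
  omega

theorem bound (E : List (ℕ × ℕ)) : 2 * gg E + 10 + PP E + 6 ≤ 4 * PP E := by
  have h1 := tt_le E
  unfold gg PP
  nlinarith [Nat.zero_le E.length]

theorem pos_red (E : List (ℕ × ℕ)) : 1 ≤ (red E).1.length := by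
  have h1 := length_HA E
  rw [length_red]
  have h2 : 1 ≤ PP E := by unfold PP; omega
  omega

/-- All the long labellings. -/
theorem red_long {E : List (ℕ × ℕ)} (hE : Loopless E) (h : Col 4 E) (k : ℕ)
    (hk : 4 * (red E).1.length ≤ k) : InClass 2 k (arcRel (red E)) := by
  have hmem : ∀ a, a ∈ HA E ↔ a ∈ arcs (renE E) (2 * tt E + 2) (PP E) := fun a => List.mem_dedup
  have hlen : (renE E).length ≤ 2 ^ tt E := by
    rw [renE_length]
    have := lt_two_pow_tt E
    omega
  have hk1 : 2 * (2 * tt E + 2) + 10 + PP E + 6 ≤ k := by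
    have h1 := bound E
    have h2 := length_HA E
    rw [length_red] at hk
    unfold gg at h1
    omega
  obtain ⟨k, rfl⟩ : ∃ k', k = k' + 1 := ⟨k - 1, by omega⟩
  unfold red
  refine ldig_classk (List.nodup_dedup _) ?_
  refine if_dir' (t := tt E) hmem hlen ?_ (renE_loopless hE) ((renE_col 4 E).1 h) (by omega)
  intro e he
  have h1 := renE_bounded E e he
  have h2 := lt_two_pow_tt E
  omega

/-- No labelling at all. -/
theorem red_none {E : List (ℕ × ℕ)} (hE : Loopless E) (h : ¬ Col 4 E) (k : ℕ) (hk : 1 ≤ k) :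
    ¬ InClass 2 k (arcRel (red E)) :=
  fun h' => h ((red_correct hE).2 ⟨k, hk, h'⟩)

/-- The digraph has levels: along each arc the level increases by one. -/
def Levelled (I : List ℕ × List (ℕ × ℕ)) : Prop := ∃ h : ℕ → ℕ, ∀ a ∈ I.2, h a.2 = h a.1 + 1

theorem red_levelled (E : List (ℕ × ℕ)) : Levelled (red E) := by
  refine ⟨fun i => (((HA E)[i]?).map (fun a => a.1.2.1)).getD 0, ?_⟩
  rintro ⟨i, j⟩ hij
  have hd := (ldig_isDigraph (HA E)).2.2 (i, j) hij
  have hi : i < (HA E).length := by
    have := hd.1
    unfold ldig at this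
    simpa using this
  have hj : j < (HA E).length := by
    have := hd.2
    unfold ldig at this
    simpa using this
  have h1 : (HA E)[i].2 = (HA E)[j].1 := (mem_ldig hi hj).1 hij
  have hmem : (HA E)[i] ∈ arcs (renE E) (2 * tt E + 2) (PP E) :=
    List.mem_dedup.1 (List.getElem_mem hi)
  have hlen : (renE E).length ≤ 2 ^ tt E := by
    rw [renE_length]
    have := lt_two_pow_tt E
    omega
  have h2 := (lett_shift (t := tt E) (c1 := fun _ => false) (c2 := fun _ => false)
    (fi := fun _ => 0) rfl rfl rfl hlen hmem).1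
  simp only
  rw [List.getElem?_eq_getElem hi, List.getElem?_eq_getElem hj]
  simp only [Option.map_some, Option.getD_some]
  rw [← h1, h2]

end Pool.Agent.Y403.DB
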